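import Mathlib

/-!
# The weak Shanks conjecture on the bidisk is false

The polynomial `f = (3 + z₁ + z₂ + 2 z₁ z₂)³` has no zeros on the closed bidisk, but its optimal
polynomial approximant `q₂ = 3 (17649 - 8940 (z₁ + z₂)) / 8330305` (in `H²(𝔻²)`, for the
degree-lexicographic ordering, so the minimum is taken over the polynomials of degree at most one)
vanishes at `z₁ = z₂ = 5883 / 5960`.

Where it comes from. For a symmetric `f` with real coefficients the Gram matrix of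
`f, z₁ f, z₂ f` shows that `q₂` is a multiple of `2 c₁ (z₁ + z₂) - 2 (c₀ + c₂)` with
`c₀ = ‖f‖²`, `c₁ = ⟨z₁ f, f⟩`, `c₂ = ⟨z₁ f, z₂ f⟩`, and `c₀ + c₂ < 2 c₁` means that
`‖(1 - z₁ - z₂) f‖ < ‖f‖`, i.e. that the weight `|f|²` on the torus is concentrated where
`|1 - z₁ - z₂| < 1`. Here `c₀ = 13305`, `c₁ = 8940`, `c₂ = 4344`.
-/

namespace Pool.Agent.Results.MP_52e642_an.WeakShanks

open MvPolynomial Finset

/-- The norm of the Hardy space `H²(𝔻²)` of a polynomial `∑ a_m z^m`: the square root of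
`∑ |a_m|²`. -/
noncomputable def hardyNorm (g : MvPolynomial (Fin 2) ℂ) : ℝ :=
  Real.sqrt (∑ m ∈ g.support, ‖g.coeff m‖ ^ 2)

/-- `z^m'` comes before `z^m` in the degree-lexicographic ordering `1, z₁, z₂, z₁², z₁ z₂, z₂², …`:
by total degree, and within a total degree by decreasing power of `z₁`. -/
def Before (m' m : Fin 2 →₀ ℕ) : Prop :=
  m' 0 + m' 1 < m 0 + m 1 ∨ (m' 0 + m' 1 = m 0 + m 1 ∧ m 0 < m' 0)

/-- The linear span of the first `n + 1` monomials (those which have at most `n` predecessors). -/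
noncomputable def polySpan (n : ℕ) : Submodule ℂ (MvPolynomial (Fin 2) ℂ) :=
  Submodule.span ℂ {p | ∃ m : Fin 2 →₀ ℕ, {m' | Before m' m}.encard ≤ n ∧ p = monomial m 1}

/-- `q` is the `n`-th optimal polynomial approximant of `1/f` in `H²(𝔻²)`: it minimises
`‖p f - 1‖` over all `p` in the span of the first `n + 1` monomials. -/
def IsOPA (f : MvPolynomial (Fin 2) ℂ) (n : ℕ) (q : MvPolynomial (Fin 2) ℂ) : Prop :=
  q ∈ polySpan n ∧ ∀ p ∈ polySpan n, hardyNorm (q * f - 1) ≤ hardyNorm (p * f - 1)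

/-- The polynomial `(3 + z₁ + z₂ + 2 z₁ z₂)³`. -/
noncomputable def theF : MvPolynomial (Fin 2) ℂ :=
  (3 + X 0 + X 1 + 2 * X 0 * X 1) ^ 3

/-! ## No zeros on the closed bidisk -/

lemma base_ne_zero (z w : ℂ) (hz : ‖z‖ ≤ 1) (hw : ‖w‖ ≤ 1) : 3 + z + w + 2 * z * w ≠ 0 := by
  intro h
  have h1 : w * (1 + 2 * z) = -(3 + z) := by linear_combination h
  have h2 : ‖w‖ * ‖1 + 2 * z‖ = ‖3 + z‖ := by
    rw [← norm_mul, h1, norm_neg]
  have h3 : ‖3 + z‖ ≤ ‖1 + 2 * z‖ := by
    rw [← h2]; exact mul_le_of_le_one_left (norm_nonneg _) hw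
  have h4 : ‖3 + z‖ ^ 2 ≤ ‖1 + 2 * z‖ ^ 2 := by gcongr
  have h5 : ‖z‖ ^ 2 ≤ 1 := by
    have := norm_nonneg z
    nlinarith
  rw [Complex.sq_norm, Complex.normSq_apply] at h4 h5
  rw [Complex.sq_norm, Complex.normSq_apply] at h4
  simp at h4
  nlinarith [sq_nonneg (z.re + 1)]

/-! ## Polynomials with explicit coefficients -/

/-- The exponent `(i, j)`. -/
noncomputable def ex (i j : ℕ) : Fin 2 →₀ ℕ := Finsupp.single 0 i + Finsupp.single 1 j

lemma ex_zero (i j : ℕ) : ex i j 0 = i := by simp [ex]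
lemma ex_one (i j : ℕ) : ex i j 1 = j := by simp [ex]

lemma ex_inj {i j k l : ℕ} (h : ex i j = ex k l) : i = k ∧ j = l := by
  constructor
  · rw [← ex_zero i j, h, ex_zero]
  · rw [← ex_one i j, h, ex_one]

lemma eq_ex (m : Fin 2 →₀ ℕ) : m = ex (m 0) (m 1) := by
  ext i
  fin_cases i
  · simp [ex_zero]
  · simp [ex_one]

lemma monomial_ex (i j : ℕ) (c : ℂ) : monomial (ex i j) c = C c * X 0 ^ i * X 1 ^ j := by
  rw [ex, X_pow_eq_monomial, X_pow_eq_monomial, C_mul_monomial, monomial_mul, mul_one, mul_one]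

/-- The polynomial of bidegree at most `(4,4)` with the coefficients `u`. -/
noncomputable def ofCoeffs (u : ℕ → ℕ → ℂ) : MvPolynomial (Fin 2) ℂ :=
  ∑ i ∈ range 5, ∑ j ∈ range 5, monomial (ex i j) (u i j)

lemma coeff_ofCoeffs (u : ℕ → ℕ → ℂ) (k l : ℕ) :
    (ofCoeffs u).coeff (ex k l) = if k < 5 ∧ l < 5 then u k l else 0 := by
  have h : ∀ i j, (monomial (ex i j) (u i j)).coeff (ex k l) =
      if i = k then (if j = l then u k l else 0) else 0 := by
    intro i j
    rw [coeff_monomial]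
    by_cases h1 : i = k
    · by_cases h2 : j = l
      · simp [h1, h2]
      · have : ex i j ≠ ex k l := fun h => h2 (ex_inj h).2
        simp [this, h2]
    · have : ex i j ≠ ex k l := fun h => h1 (ex_inj h).1
      simp [this, h1]
  simp only [ofCoeffs, coeff_sum, h]
  by_cases h1 : k < 5
  · by_cases h2 : l < 5
    · simp [h1, h2]
    · simp [h1, h2]
  · simp [h1]

lemma hardyNorm_ofCoeffs (u : ℕ → ℕ → ℂ) :
    hardyNorm (ofCoeffs u) = Real.sqrt (∑ i ∈ range 5, ∑ j ∈ range 5, ‖u i j‖ ^ 2) := by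
  unfold hardyNorm
  congr 1
  rw [← Finset.sum_product' (s := range 5) (t := range 5) (f := fun i j => ‖u i j‖ ^ 2)]
  have hinj : Set.InjOn (fun x : ℕ × ℕ => ex x.1 x.2) (range 5 ×ˢ range 5 : Finset (ℕ × ℕ)) := by
    intro x _ y _ h
    exact Prod.ext (ex_inj h).1 (ex_inj h).2
  rw [show (∑ x ∈ range 5 ×ˢ range 5, ‖u x.1 x.2‖ ^ 2) =
      ∑ m ∈ (range 5 ×ˢ range 5).image (fun x : ℕ × ℕ => ex x.1 x.2),
        ‖(ofCoeffs u).coeff m‖ ^ 2 from ?_]
  · apply Finset.sum_subset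
    · intro m hm
      rw [mem_support_iff, eq_ex m, coeff_ofCoeffs] at hm
      rw [Finset.mem_image]
      refine ⟨(m 0, m 1), ?_, (eq_ex m).symm⟩
      rw [Finset.mem_product, Finset.mem_range, Finset.mem_range]
      by_contra hc
      exact hm (if_neg hc)
    · intro m _ hm
      rw [notMem_support_iff.mp hm]
      simp
  · rw [Finset.sum_image hinj]
    apply Finset.sum_congr rfl
    intro x hx
    rw [Finset.mem_product, Finset.mem_range, Finset.mem_range] at hx
    rw [coeff_ofCoeffs, if_pos hx]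

/-- The coefficients of `f`. -/
def cf : ℕ → ℕ → ℝ
  | 0, 0 => 27 | 0, 1 => 27 | 0, 2 => 9 | 0, 3 => 1
  | 1, 0 => 27 | 1, 1 => 72 | 1, 2 => 39 | 1, 3 => 6
  | 2, 0 => 9 | 2, 1 => 39 | 2, 2 => 48 | 2, 3 => 12
  | 3, 0 => 1 | 3, 1 => 6 | 3, 2 => 12 | 3, 3 => 8
  | _, _ => 0

/-- The coefficients of `(a + b z₁ + c z₂) f - 1`. -/
noncomputable def cu (a b c : ℂ) (i j : ℕ) : ℂ :=
  a * cf i j + b * (if i = 0 then 0 else cf (i - 1) j) + c * (if j = 0 then 0 else cf i (j - 1)) -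
    (if i = 0 ∧ j = 0 then 1 else 0)

lemma mul_sub_one_eq (a b c : ℂ) :
    (C a + C b * X 0 + C c * X 1) * theF - 1 = ofCoeffs (cu a b c) := by
  have h6 : (C 6 : MvPolynomial (Fin 2) ℂ) = 6 := map_ofNat C 6
  have h8 : (C 8 : MvPolynomial (Fin 2) ℂ) = 8 := map_ofNat C 8
  have h9 : (C 9 : MvPolynomial (Fin 2) ℂ) = 9 := map_ofNat C 9
  have h12 : (C 12 : MvPolynomial (Fin 2) ℂ) = 12 := map_ofNat C 12
  have h27 : (C 27 : MvPolynomial (Fin 2) ℂ) = 27 := map_ofNat C 27
  have h39 : (C 39 : MvPolynomial (Fin 2) ℂ) = 39 := map_ofNat C 39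
  have h48 : (C 48 : MvPolynomial (Fin 2) ℂ) = 48 := map_ofNat C 48
  have h72 : (C 72 : MvPolynomial (Fin 2) ℂ) = 72 := map_ofNat C 72
  simp only [ofCoeffs, sum_range_succ, Finset.sum_range_zero, monomial_ex, cu, cf, theF]
  simp only [zero_add, add_zero, mul_zero, sub_zero, mul_one, if_false, if_true,
    and_false, and_true, Nat.reduceSub, OfNat.ofNat_ne_zero,
    one_ne_zero, Complex.ofReal_ofNat, Complex.ofReal_zero, Complex.ofReal_one,
    map_add, map_mul, map_sub, map_zero, map_one, tsub_self, pow_zero, pow_one, zero_mul,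
    h6, h8, h9, h12, h27, h39, h48, h72]
  ring

lemma norm_sq_re_im (z : ℂ) : ‖z‖ ^ 2 = z.re ^ 2 + z.im ^ 2 := by
  rw [Complex.sq_norm, Complex.normSq_apply]; ring

/-- The quadratic form of the Gram matrix of `f, z₁ f, z₂ f`. -/
def qf (x y z : ℝ) : ℝ :=
  13305 * (x ^ 2 + y ^ 2 + z ^ 2) + 17880 * (x * y + x * z) + 8688 * (y * z)

lemma sum_cu (a b c : ℂ) : ∑ i ∈ range 5, ∑ j ∈ range 5, ‖cu a b c i j‖ ^ 2 =
    qf a.re b.re c.re + qf a.im b.im c.im - 54 * a.re + 1 := by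
  simp only [sum_range_succ, Finset.sum_range_zero, norm_sq_re_im, cu, cf, qf]
  simp
  ring

lemma qf_pos (x y z : ℝ) : x ^ 2 + y ^ 2 + z ^ 2 ≤ qf x y z := by
  unfold qf
  nlinarith [sq_nonneg (13304 * x + 8940 * (y + z)), sq_nonneg (y - z), sq_nonneg (y + z)]

/-- The optimal polynomial approximant. -/
noncomputable def theQ : MvPolynomial (Fin 2) ℂ :=
  C (52947 / 8330305) + C (-26820 / 8330305) * X 0 + C (-26820 / 8330305) * X 1

lemma excess (a b c : ℂ) :
    qf a.re b.re c.re + qf a.im b.im c.im - 54 * a.re + 1 =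
    qf (a.re - 52947 / 8330305) (b.re + 26820 / 8330305) (c.re + 26820 / 8330305) +
      qf a.im b.im c.im + (1 - 27 * (52947 / 8330305)) := by
  unfold qf
  ring

/-! ## The span of the first three monomials -/

lemma before_zero (m : Fin 2 →₀ ℕ) : ¬ Before m (ex 0 0) := by
  intro h
  simp only [Before, ex_zero, ex_one] at h
  omega

lemma before_10 (m : Fin 2 →₀ ℕ) : Before m (ex 1 0) ↔ m = ex 0 0 := by
  constructor
  · intro h
    simp only [Before, ex_zero, ex_one] at h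
    have h0 : m 0 = 0 := by omega
    have h1 : m 1 = 0 := by omega
    rw [eq_ex m, h0, h1]
  · rintro rfl
    simp [Before, ex_zero, ex_one]

lemma before_01 (m : Fin 2 →₀ ℕ) : Before m (ex 0 1) ↔ m = ex 0 0 ∨ m = ex 1 0 := by
  constructor
  · intro h
    simp only [Before, ex_zero, ex_one] at h
    by_cases h0 : m 0 = 0
    · left
      have h1 : m 1 = 0 := by omega
      rw [eq_ex m, h0, h1]
    · right
      have h0 : m 0 = 1 := by omega
      have h1 : m 1 = 0 := by omega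
      rw [eq_ex m, h0, h1]
  · rintro (rfl | rfl) <;> simp [Before, ex_zero, ex_one]

lemma before_iff (m : Fin 2 →₀ ℕ) :
    {m' | Before m' m}.encard ≤ (2 : ℕ) ↔ m = ex 0 0 ∨ m = ex 1 0 ∨ m = ex 0 1 := by
  constructor
  · intro h
    by_contra hc
    push Not at hc
    obtain ⟨h1, h2, h3⟩ := hc
    have hm : 2 ≤ m 0 + m 1 := by
      by_contra hlt
      have : (m 0 = 0 ∧ m 1 = 0) ∨ (m 0 = 1 ∧ m 1 = 0) ∨ (m 0 = 0 ∧ m 1 = 1) := by omega
      rcases this with ⟨ha, hb⟩ | ⟨ha, hb⟩ | ⟨ha, hb⟩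
      · exact h1 (by rw [eq_ex m, ha, hb])
      · exact h2 (by rw [eq_ex m, ha, hb])
      · exact h3 (by rw [eq_ex m, ha, hb])
    have hsub : ({ex 0 0, ex 1 0, ex 0 1} : Set (Fin 2 →₀ ℕ)) ⊆ {m' | Before m' m} := by
      rintro x (rfl | rfl | rfl) <;> simp [Before, ex_zero, ex_one] <;> omega
    have h4 := (Set.encard_le_encard hsub).trans h
    have h5 : ex 0 0 ≠ ex 1 0 := fun h => by simpa using (ex_inj h).1
    have h6 : ex 0 0 ≠ ex 0 1 := fun h => by simpa using (ex_inj h).2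
    have h7 : ex 1 0 ≠ ex 0 1 := fun h => by simpa using (ex_inj h).2
    rw [Set.encard_insert_of_notMem (by simp [h5, h6]), Set.encard_pair h7] at h4
    norm_num at h4
  · rintro (rfl | rfl | rfl)
    · have : {m' | Before m' (ex 0 0)} = ∅ := by ext m; simp [before_zero]
      rw [this]; simp
    · have : {m' | Before m' (ex 1 0)} = {ex 0 0} := by ext m; simp [before_10]
      rw [this]; simp
    · have : {m' | Before m' (ex 0 1)} = {ex 0 0, ex 1 0} := by ext m; simp [before_01]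
      have h5 : ex 0 0 ≠ ex 1 0 := fun h => by simpa using (ex_inj h).1
      rw [this, Set.encard_pair h5]
      exact le_rfl

lemma mem_polySpan_two (p : MvPolynomial (Fin 2) ℂ) :
    p ∈ polySpan 2 ↔ ∃ a b c : ℂ, p = C a + C b * X 0 + C c * X 1 := by
  have hset : {p : MvPolynomial (Fin 2) ℂ |
      ∃ m : Fin 2 →₀ ℕ, {m' | Before m' m}.encard ≤ (2 : ℕ) ∧ p = monomial m 1} =
      {1, X 0, X 1} := by
    ext p
    simp only [Set.mem_ofPred_eq, before_iff, Set.mem_insert_iff, Set.mem_singleton_iff]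
    constructor
    · rintro ⟨m, rfl | rfl | rfl, rfl⟩
      · left; rw [monomial_ex]; simp
      · right; left; rw [monomial_ex]; simp
      · right; right; rw [monomial_ex]; simp
    · rintro (rfl | rfl | rfl)
      · exact ⟨ex 0 0, Or.inl rfl, by rw [monomial_ex]; simp⟩
      · exact ⟨ex 1 0, Or.inr (Or.inl rfl), by rw [monomial_ex]; simp⟩
      · exact ⟨ex 0 1, Or.inr (Or.inr rfl), by rw [monomial_ex]; simp⟩
  rw [polySpan, hset, Submodule.mem_span_triple]
  constructor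
  · rintro ⟨a, b, c, rfl⟩
    exact ⟨a, b, c, by simp [MvPolynomial.smul_eq_C_mul]⟩
  · rintro ⟨a, b, c, rfl⟩
    exact ⟨a, b, c, by simp [MvPolynomial.smul_eq_C_mul]⟩

lemma norm_eq (a b c : ℂ) : hardyNorm ((C a + C b * X 0 + C c * X 1) * theF - 1) =
    Real.sqrt (qf (a.re - 52947 / 8330305) (b.re + 26820 / 8330305) (c.re + 26820 / 8330305) +
      qf a.im b.im c.im + (1 - 27 * (52947 / 8330305))) := by
  rw [mul_sub_one_eq, hardyNorm_ofCoeffs, sum_cu, excess]

lemma norm_theQ : hardyNorm (theQ * theF - 1) = Real.sqrt (1 - 27 * (52947 / 8330305)) := by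
  rw [theQ, norm_eq]
  congr 1
  have h1 : ((52947 / 8330305 : ℂ)).re = 52947 / 8330305 := by
    rw [show (52947 / 8330305 : ℂ) = ((52947 / 8330305 : ℝ) : ℂ) by push_cast; rfl]
    exact Complex.ofReal_re _
  have h2 : ((-26820 / 8330305 : ℂ)).re = -26820 / 8330305 := by
    rw [show (-26820 / 8330305 : ℂ) = ((-26820 / 8330305 : ℝ) : ℂ) by push_cast; rfl]
    exact Complex.ofReal_re _
  have h3 : ((52947 / 8330305 : ℂ)).im = 0 := by
    rw [show (52947 / 8330305 : ℂ) = ((52947 / 8330305 : ℝ) : ℂ) by push_cast; rfl]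
    exact Complex.ofReal_im _
  have h4 : ((-26820 / 8330305 : ℂ)).im = 0 := by
    rw [show (-26820 / 8330305 : ℂ) = ((-26820 / 8330305 : ℝ) : ℂ) by push_cast; rfl]
    exact Complex.ofReal_im _
  rw [h1, h2, h3, h4]
  unfold qf
  ring

/-- The polynomial `q` is the optimal approximant. -/
lemma isOPA_theQ : IsOPA theF 2 theQ := by
  refine ⟨(mem_polySpan_two _).2 ⟨_, _, _, rfl⟩, ?_⟩
  intro p hp
  obtain ⟨a, b, c, rfl⟩ := (mem_polySpan_two p).1 hp
  rw [norm_theQ, norm_eq]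
  apply Real.sqrt_le_sqrt
  have h1 := qf_pos (a.re - 52947 / 8330305) (b.re + 26820 / 8330305) (c.re + 26820 / 8330305)
  have h2 := qf_pos a.im b.im c.im
  nlinarith [sq_nonneg (a.re - 52947 / 8330305), sq_nonneg (b.re + 26820 / 8330305),
    sq_nonneg (c.re + 26820 / 8330305), sq_nonneg a.im, sq_nonneg b.im, sq_nonneg c.im]

lemma unique_OPA (q : MvPolynomial (Fin 2) ℂ) (hq : IsOPA theF 2 q) : q = theQ := by
  obtain ⟨hq1, hq2⟩ := hq
  obtain ⟨a, b, c, rfl⟩ := (mem_polySpan_two q).1 hq1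
  have h := hq2 theQ ((mem_polySpan_two _).2 ⟨_, _, _, rfl⟩)
  rw [norm_theQ, norm_eq] at h
  have h1 := qf_pos (a.re - 52947 / 8330305) (b.re + 26820 / 8330305) (c.re + 26820 / 8330305)
  have h2 := qf_pos a.im b.im c.im
  have h3 := (Real.sqrt_le_sqrt_iff (by norm_num)).1 h
  have s1 := sq_nonneg (a.re - 52947 / 8330305)
  have s2 := sq_nonneg (b.re + 26820 / 8330305)
  have s3 := sq_nonneg (c.re + 26820 / 8330305)
  have s4 := sq_nonneg a.im
  have s5 := sq_nonneg b.im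
  have s6 := sq_nonneg c.im
  have e1 : a.re - 52947 / 8330305 = 0 := by
    apply pow_eq_zero_iff (two_ne_zero) |>.1; linarith
  have e2 : b.re + 26820 / 8330305 = 0 := by
    apply pow_eq_zero_iff (two_ne_zero) |>.1; linarith
  have e3 : c.re + 26820 / 8330305 = 0 := by
    apply pow_eq_zero_iff (two_ne_zero) |>.1; linarith
  have e4 : a.im = 0 := by
    apply pow_eq_zero_iff (two_ne_zero) |>.1; linarith
  have e5 : b.im = 0 := by
    apply pow_eq_zero_iff (two_ne_zero) |>.1; linarith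
  have e6 : c.im = 0 := by
    apply pow_eq_zero_iff (two_ne_zero) |>.1; linarith
  have ha : a = 52947 / 8330305 := by
    rw [← Complex.re_add_im a, e4, show a.re = 52947 / 8330305 by linarith]
    push_cast; ring
  have hb : b = -26820 / 8330305 := by
    rw [← Complex.re_add_im b, e5, show b.re = -26820 / 8330305 by linarith]
    push_cast; ring
  have hc : c = -26820 / 8330305 := by
    rw [← Complex.re_add_im c, e6, show c.re = -26820 / 8330305 by linarith]
    push_cast; ring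
  rw [ha, hb, hc, theQ]

/-- **The weak Shanks conjecture on the bidisk fails.** The polynomial
`f = (3 + z₁ + z₂ + 2 z₁ z₂)³` has no zeros on the closed bidisk; there is exactly one polynomial
`q` which is a second optimal polynomial approximant of `1/f` in `H²(𝔻²)` (the minimum being taken
over the span of `1, z₁, z₂`), and `q` has a zero in the open bidisk. -/
theorem result :
    ∃ f : MvPolynomial (Fin 2) ℂ, f = (3 + X 0 + X 1 + 2 * X 0 * X 1) ^ 3 ∧
      (∀ z : Fin 2 → ℂ, (∀ i, ‖z i‖ ≤ 1) → eval z f ≠ 0) ∧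
      ∃ q : MvPolynomial (Fin 2) ℂ, IsOPA f 2 q ∧ (∀ q', IsOPA f 2 q' → q' = q) ∧
        ∃ z : Fin 2 → ℂ, (∀ i, ‖z i‖ < 1) ∧ eval z q = 0 := by
  refine ⟨theF, rfl, ?_, theQ, isOPA_theQ, unique_OPA, fun _ => 5883 / 5960, ?_, ?_⟩
  · intro z hz
    have := base_ne_zero (z 0) (z 1) (hz 0) (hz 1)
    simpa [theF] using this
  · intro i
    norm_num
  · simp [theQ]
    norm_num

end Pool.Agent.Results.MP_52e642_an.WeakShanks
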